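import Pool.Agent.TH623.SA.Geo

/-!
# The simple `k`-Anosov domain is not a maximal domain of discontinuity

Let `Γ` be the group of a closed hyperbolic surface, `d ≥ 4` and `1 ≤ k < d`. Choose
`j ∈ {1, 2}` with `j ≠ k` and `j ≠ d - k`, and let `x₀` be the character of the representation
`ρ₀ = (Γ ↪ SL(2))^{⊕ j} ⊕ 1^{⊕ (d - 2j)}`.

* Near `x₀` the traces (and the norms, up to conjugation) of all elements of `Γ` grow with their
  length, because `ρ₀` has a robust domination of rank `j`. Hence there is an open neighbourhood
  `N` of `x₀` such that for every compact set `K` of the character variety only finitely many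
  mapping classes `φ` satisfy `φ N ∩ K ≠ ∅`.
* Therefore the union of any domain of discontinuity with the orbit of `N` is a domain of
  discontinuity.
* `x₀` is not the character of a simple `k`-Anosov representation, because along a simple closed
  geodesic the eigenvalue moduli only have gaps at `j` and `d - j`.
-/

set_option autoImplicit false

open Pool.Agent.TH623.SA
open scoped MatrixGroups

namespace Pool.Agent.Results.MP_c30652_gt.NotMaximal

/-- For every closed hyperbolic surface, every `d ≥ 4` and every `1 ≤ k < d` there is a subset `W`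
of the `SL(d, ℂ)`-character variety which is not contained in the simple `k`-Anosov domain and
such that the union of any domain of discontinuity with `W` is again a domain of discontinuity. -/
theorem result (Γ : Subgroup SL(2, ℝ)) (hΓ : IsSurfaceGroup Γ) (d k : ℕ) (hd : 4 ≤ d)
    (hk : 1 ≤ k) (hkd : k < d) :
    ∃ W : Set (CharVar Γ d), ¬ W ⊆ simpleAnosovDomain Γ d k ∧
      ∀ U : Set (CharVar Γ d), IsDomainOfDiscontinuity U → IsDomainOfDiscontinuity (U ∪ W) :=
  exists_absorbing hΓ hd hk hkd

/-- In particular the simple `k`-Anosov domain is not a maximal domain of discontinuity. -/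
theorem not_maximal (Γ : Subgroup SL(2, ℝ)) (hΓ : IsSurfaceGroup Γ) (d k : ℕ) (hd : 4 ≤ d)
    (hk : 1 ≤ k) (hkd : k < d) : ¬ IsMaximalDomain (simpleAnosovDomain Γ d k) := by
  rintro ⟨hdom, hmax⟩
  obtain ⟨W, hW, hU⟩ := result Γ hΓ d k hd hk hkd
  have h := hmax _ (hU _ hdom) Set.subset_union_left
  exact hW (h ▸ Set.subset_union_right)

end Pool.Agent.Results.MP_c30652_gt.NotMaximal
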